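import Pool.Agent.H27.XR2.C1Aa

/-!
# XR2, row C1A: unverified bodies in isotropic position are `C¹`
-/

set_option autoImplicit false

open MeasureTheory Set Filter Topology Metric Asymptotics
open scoped Real ENNReal RealInnerProductSpace

namespace Pool.XR2

open Pool.Agent.H45.XR

namespace C1Aa

theorem inner_lt_of_interior {K : Set E3} {n q : E3} {s : ℝ} (hn : n ≠ 0)
    (h : ∀ z ∈ K, ⟪n, z⟫ ≤ s) (hq : q ∈ interior K) : ⟪n, q⟫ < s := by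
  have h1 : ∀ᶠ ε : ℝ in 𝓝 0, q + ε • n ∈ interior K := by
    have hc : Continuous fun ε : ℝ => q + ε • n := by fun_prop
    have := hc.continuousAt (x := 0)
    exact this.eventually_mem (isOpen_interior.mem_nhds (by simpa using hq))
  obtain ⟨δ, hδ, h2⟩ := Metric.eventually_nhds_iff.1 h1
  have h3 : q + (δ / 2) • n ∈ K := interior_subset (h2 (by
    rw [Real.dist_eq, sub_zero, abs_of_pos (by linarith)]
    linarith))
  have h4 := h _ h3
  rw [inner_add_right, inner_smul_right, real_inner_self_eq_norm_sq] at h4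
  have h5 : 0 < ‖n‖ := norm_pos_iff.2 hn
  have h6 : 0 < δ / 2 * ‖n‖ ^ 2 := by positivity
  linarith

theorem xl_pos {K : Set E3} {u q : E3} (hq : q ∈ interior K) : 0 < xl K u q := by
  unfold xl
  have ho : IsOpen {s : ℝ | q + s • u ∈ interior K} := by
    have hc : Continuous fun s : ℝ => q + s • u := by fun_prop
    exact isOpen_interior.preimage hc
  have h1 : 0 < volume {s : ℝ | q + s • u ∈ interior K} :=
    ho.measure_pos volume ⟨0, by simpa using hq⟩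
  exact h1.trans_le (measure_mono fun s hs => interior_subset (s := K) hs)

/-- Supporting half spaces are reflected. -/
theorem reflect {K : Set E3} (hK : IsConvexBody K) {a w n : E3} (hS : SymR K a w)
    (hn : ⟪n, a⟫ = 0) {s : ℝ} (h : ∀ q ∈ K, ⟪n, q⟫ ≤ s) :
    ∀ q ∈ K, ⟪n - (2 * ⟪w, n⟫) • w, q⟫ ≤ s := by
  have h1 : ∀ q ∈ interior K, ⟪n - (2 * ⟪w, n⟫) • w, q⟫ ≤ s := by
    intro q hq
    have h2 : 0 < xl K a (q - (2 * ⟪w, q⟫) • w) := by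
      rw [hS q]
      exact xl_pos hq
    unfold xl at h2
    have h3 : {t : ℝ | q - (2 * ⟪w, q⟫) • w + t • a ∈ K}.Nonempty := by
      by_contra h4
      rw [Set.not_nonempty_iff_eq_empty] at h4
      rw [h4, measure_empty] at h2
      exact lt_irrefl _ h2
    obtain ⟨t, ht⟩ := h3
    have h5 := h _ ht
    rw [inner_add_right, inner_sub_right, inner_smul_right, inner_smul_right, hn] at h5
    rw [inner_sub_left, inner_smul_left]
    simp only [conj_trivial]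
    rw [real_inner_comm w n] at h5
    linarith
  have hcl : K ⊆ closure (interior K) := by
    rw [hK.1.closure_interior_eq_closure_of_nonempty_interior hK.2.2]
    exact subset_closure
  intro q hq
  have hclosed : IsClosed {q : E3 | ⟪n - (2 * ⟪w, n⟫) • w, q⟫ ≤ s} :=
    isClosed_le (by fun_prop) continuous_const
  exact closure_minimal (fun z hz => h1 z hz) hclosed (hcl hq)

theorem exists_angle {x y : ℝ} (h : x ^ 2 + y ^ 2 = 1) :
    ∃ ψ : ℝ, Real.cos ψ = x ∧ Real.sin ψ = y := by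
  set z : ℂ := ⟨x, y⟩ with hz
  have hn : ‖z‖ = 1 := by
    rw [Complex.norm_def, Complex.normSq_mk]
    rw [show x * x + y * y = 1 by linarith, Real.sqrt_one]
  have h0 : z ≠ 0 := by
    intro h0
    rw [h0, norm_zero] at hn
    exact zero_ne_one hn
  exact ⟨z.arg, by rw [Complex.cos_arg h0, hn, div_one], by rw [Complex.sin_arg, hn, div_one]⟩

theorem exists_ortho (m₁ m₂ : E3) : ∃ a : E3, ‖a‖ = 1 ∧ ⟪m₁, a⟫ = 0 ∧ ⟪m₂, a⟫ = 0 := by
  classical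
  set S : Submodule ℝ E3 := Submodule.span ℝ (({m₁, m₂} : Finset E3) : Set E3) with hS
  have h1 : Module.finrank ℝ S ≤ 2 :=
    (finrank_span_finset_le_card _).trans Finset.card_le_two
  have h2 := Submodule.finrank_add_finrank_orthogonal S
  have h3 : Module.finrank ℝ E3 = 3 := by simp
  have h4 : 0 < Module.finrank ℝ Sᗮ := by omega
  have : Nontrivial Sᗮ := Module.finrank_pos_iff.1 h4
  obtain ⟨⟨v, hv⟩, hv0⟩ := exists_ne (0 : Sᗮ)
  have hv1 : v ≠ 0 := fun h => hv0 (Subtype.ext h)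
  have hm1 : ⟪m₁, v⟫ = 0 := (Submodule.mem_orthogonal _ _).1 hv m₁
    (Submodule.subset_span (by simp))
  have hm2 : ⟪m₂, v⟫ = 0 := (Submodule.mem_orthogonal _ _).1 hv m₂
    (Submodule.subset_span (by simp))
  refine ⟨‖v‖⁻¹ • v, ?_, ?_, ?_⟩
  · rw [norm_smul, norm_inv, norm_norm, inv_mul_cancel₀ (norm_ne_zero_iff.2 hv1)]
  · rw [inner_smul_right, hm1, mul_zero]
  · rw [inner_smul_right, hm2, mul_zero]

/-- An orthonormal basis with given first two vectors. -/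
theorem exists_basis {u w : E3} (h : OP u w) :
    ∃ b : OrthonormalBasis (Fin 3) ℝ E3, b 0 = u ∧ b 1 = w := by
  obtain ⟨hu, hw, huw⟩ := h
  set v : Fin 3 → E3 := ![u, w, 0] with hv
  have hor : Orthonormal ℝ (({0, 1} : Set (Fin 3)).domRestrict v) := by
    rw [orthonormal_iff_ite]
    rintro ⟨i, hi⟩ ⟨j, hj⟩
    simp only [mem_insert_iff, mem_singleton_iff] at hi hj
    have hij : ∀ (i j : Fin 3) (hi : i ∈ ({0, 1} : Set (Fin 3))) (hj : j ∈ ({0, 1} : Set (Fin 3))),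
        ⟪({0, 1} : Set (Fin 3)).domRestrict v ⟨i, hi⟩, ({0, 1} : Set (Fin 3)).domRestrict v ⟨j, hj⟩⟫ =
        ⟪v i, v j⟫ := fun i j hi hj => rfl
    rw [hij]
    have h0 : v 0 = u := rfl
    have h1 : v 1 = w := rfl
    rcases hi with rfl | rfl <;> rcases hj with rfl | rfl
    · rw [h0, real_inner_self_eq_norm_sq, hu]; simp
    · rw [h0, h1, huw]; simp
    · rw [h0, h1, real_inner_comm, huw]; simp
    · rw [h1, real_inner_self_eq_norm_sq, hw]; simp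
  obtain ⟨b, hb⟩ := hor.exists_orthonormalBasis_extension_of_card_eq (by simp)
  exact ⟨b, by simpa [hv] using hb 0 (by simp), by simpa [hv] using hb 1 (by simp)⟩

/-- Not all directions orthogonal to `a` are symmetric. -/
theorem step1 {K : Set E3} (hK : IsConvexBody K) {x m₁ m₂ a : E3} (hx : x ∈ K)
    (hm₁ : ‖m₁‖ = 1) (hm₂ : ‖m₂‖ = 1) (hne : m₁ ≠ m₂) (hne' : m₁ ≠ -m₂)
    (h₁ : ∀ q ∈ K, ⟪m₁, q⟫ ≤ ⟪m₁, x⟫) (h₂ : ∀ q ∈ K, ⟪m₂, q⟫ ≤ ⟪m₂, x⟫)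
    (ha : ‖a‖ = 1) (ha1 : ⟪m₁, a⟫ = 0) (ha2 : ⟪m₂, a⟫ = 0) :
    ∃ w, OP a w ∧ ¬ SymR K a w := by
  have hm₁0 : m₁ ≠ 0 := by
    intro h; rw [h, norm_zero] at hm₁; exact zero_ne_one hm₁
  obtain ⟨g, hg⟩ : ∃ g : ℝ, g = ⟪m₁, m₂⟫ := ⟨_, rfl⟩
  have hg1 : g < 1 := by
    rw [hg]
    exact (inner_lt_one_iff_real_of_norm_eq_one hm₁ hm₂).2 hne
  have hg2 : -1 < g := by
    have := (inner_lt_one_iff_real_of_norm_eq_one hm₁ (show ‖-m₂‖ = 1 by rwa [norm_neg])).2 hne'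
    rw [inner_neg_right, ← hg] at this
    linarith
  have hm11 : ⟪m₁, m₁⟫ = 1 := by rw [real_inner_self_eq_norm_sq, hm₁, one_pow]
  have hm22 : ⟪m₂, m₂⟫ = 1 := by rw [real_inner_self_eq_norm_sq, hm₂, one_pow]
  have hm21 : ⟪m₂, m₁⟫ = g := by rw [real_inner_comm, hg]
  obtain ⟨q, hq⟩ := hK.2.2
  by_contra hall
  push Not at hall
  -- the reflection in the direction `m₁`
  have r1 : ∀ q ∈ K, ⟪-m₁, q⟫ ≤ ⟪m₁, x⟫ := by
    have h := reflect hK (hall m₁ ⟨ha, hm₁, by rw [real_inner_comm]; exact ha1⟩) ha1 h₁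
    intro q hq
    have := h q hq
    rw [hm11] at this
    have h5 : m₁ - (2 * (1 : ℝ)) • m₁ = -m₁ := by
      rw [mul_one, two_smul]; abel
    rwa [h5] at this
  have hρ : 0 < ⟪m₁, x⟫ := by
    have h3 := inner_lt_of_interior hm₁0 h₁ hq
    have h4 := r1 q (interior_subset hq)
    rw [inner_neg_left] at h4
    linarith
  -- same height for both normals
  have hd : 0 < ‖m₁ - m₂‖ := norm_pos_iff.2 (sub_ne_zero.2 hne)
  have hdsq : ‖m₁ - m₂‖ ^ 2 = 2 - 2 * g := by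
    rw [← real_inner_self_eq_norm_sq, inner_sub_left, inner_sub_right, inner_sub_right, hm11,
      hm22, hm21, ← hg]
    ring
  have hunit : ‖(‖m₁ - m₂‖⁻¹ • (m₁ - m₂) : E3)‖ = 1 := by
    rw [norm_smul, norm_inv, norm_norm, inv_mul_cancel₀ hd.ne']
  have hOP : OP a (‖m₁ - m₂‖⁻¹ • (m₁ - m₂)) := by
    refine ⟨ha, hunit, ?_⟩
    rw [inner_smul_right, inner_sub_right, real_inner_comm, ha1, real_inner_comm, ha2]
    ring
  have hrefl : ∀ n : E3, n - (2 * ⟪‖m₁ - m₂‖⁻¹ • (m₁ - m₂), n⟫) • (‖m₁ - m₂‖⁻¹ • (m₁ - m₂)) =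
      n - ((⟪m₁ - m₂, n⟫) / (1 - g)) • (m₁ - m₂) := by
    intro n
    rw [inner_smul_left, smul_smul]
    congr 2
    simp only [conj_trivial]
    have h5 : ‖m₁ - m₂‖ ≠ 0 := hd.ne'
    have h6 : (1 - g) ≠ 0 := by linarith
    field_simp
    rw [hdsq]
    ring
  have hS := hall _ hOP
  have e1 : ⟪m₂, x⟫ ≤ ⟪m₁, x⟫ := by
    have h := reflect hK hS ha1 h₁ x hx
    rw [hrefl, inner_sub_left m₁ m₂ m₁, hm11, hm21] at h
    rw [div_self (by linarith), one_smul] at h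
    simpa using h
  have e2 : ⟪m₁, x⟫ ≤ ⟪m₂, x⟫ := by
    have h := reflect hK hS ha2 h₂ x hx
    rw [hrefl, inner_sub_left m₁ m₂ m₂, hm22, ← hg] at h
    rw [show (g - 1) / (1 - g) = -1 by
      rw [div_eq_iff (by linarith)]; ring, neg_smul, one_smul] at h
    simpa using h
  have e3 : ⟪m₂, x⟫ = ⟪m₁, x⟫ := le_antisymm e1 e2
  -- the bisector
  have hs : 0 < ‖m₁ + m₂‖ := by
    rw [norm_pos_iff]
    intro h
    exact hne' (eq_neg_of_add_eq_zero_left h)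
  have hssq : ‖m₁ + m₂‖ ^ 2 = 2 + 2 * g := by
    rw [← real_inner_self_eq_norm_sq, inner_add_left, inner_add_right, inner_add_right, hm11,
      hm22, hm21, ← hg]
    ring
  obtain ⟨m, hmdef⟩ : ∃ m : E3, m = ‖m₁ + m₂‖⁻¹ • (m₁ + m₂) := ⟨_, rfl⟩
  have hm : ‖m‖ = 1 := by
    rw [hmdef, norm_smul, norm_inv, norm_norm, inv_mul_cancel₀ hs.ne']
  have hmm : ⟪m, m⟫ = 1 := by rw [real_inner_self_eq_norm_sq, hm, one_pow]
  have hma : ⟪m, a⟫ = 0 := by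
    rw [hmdef, inner_smul_left, inner_add_left, ha1, ha2]; simp
  have hslt : ‖m₁ + m₂‖ < 2 := by nlinarith
  have hmx : ⟪m, x⟫ = ‖m₁ + m₂‖⁻¹ * (⟪m₁, x⟫ + ⟪m₁, x⟫) := by
    rw [hmdef, inner_smul_left, inner_add_left, e3]; simp
  have hmx' : ⟪m₁, x⟫ < ⟪m, x⟫ := by
    rw [hmx, inv_mul_eq_div, lt_div_iff₀ hs]
    nlinarith
  obtain ⟨c, hc⟩ : ∃ c : ℝ, c = ⟪m, m₁⟫ := ⟨_, rfl⟩
  have hmne : m ≠ m₁ := by
    intro h5
    rw [h5] at hmx'
    exact lt_irrefl _ hmx'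
  have hc1 : c < 1 := by
    rw [hc]
    exact (inner_lt_one_iff_real_of_norm_eq_one hm hm₁).2 hmne
  have hd' : 0 < ‖m₁ - m‖ := norm_pos_iff.2 (sub_ne_zero.2 hmne.symm)
  have hdsq' : ‖m₁ - m‖ ^ 2 = 2 - 2 * c := by
    rw [← real_inner_self_eq_norm_sq, inner_sub_left, inner_sub_right, inner_sub_right, hm11,
      hmm, real_inner_comm m m₁, ← hc]
    ring
  have hOP' : OP a (‖m₁ - m‖⁻¹ • (m₁ - m)) := by
    refine ⟨ha, ?_, ?_⟩
    · rw [norm_smul, norm_inv, norm_norm, inv_mul_cancel₀ hd'.ne']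
    · rw [inner_smul_right, inner_sub_right, real_inner_comm, ha1, real_inner_comm, hma]
      ring
  have h := reflect hK (hall _ hOP') ha1 h₁ x hx
  have h5 : m₁ - (2 * ⟪‖m₁ - m‖⁻¹ • (m₁ - m), m₁⟫) • (‖m₁ - m‖⁻¹ • (m₁ - m)) = m := by
    rw [inner_smul_left, smul_smul, inner_sub_left, hm11, ← hc]
    simp only [conj_trivial]
    have h6 : 2 * (‖m₁ - m‖⁻¹ * (1 - c)) * ‖m₁ - m‖⁻¹ = 1 := by
      have h7 : ‖m₁ - m‖ ≠ 0 := hd'.ne'
      field_simp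
      rw [hdsq']
      ring
    rw [h6, one_smul]
    abel
  rw [h5] at h
  linarith

/-- A non-symmetric direction towards the interior. -/
theorem step2 (hG2S : G2SStmt) {K : Set E3} (hK : IsConvexBody K) {x m₁ a w₁ : E3}
    (hm₁0 : m₁ ≠ 0) (h₁ : ∀ q ∈ K, ⟪m₁, q⟫ ≤ ⟪m₁, x⟫) (ha : ‖a‖ = 1) (ha1 : ⟪m₁, a⟫ = 0)
    (hw₁ : OP a w₁) (hw₁' : ¬ SymR K a w₁) :
    ∃ (w₀ : E3) (β α : ℝ), 0 < β ∧ ‖w₀‖ = 1 ∧ ⟪a, w₀⟫ = 0 ∧ ¬ SymR K a w₀ ∧
      x + β • w₀ + α • a ∈ interior K := by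
  obtain ⟨q, hq⟩ := hK.2.2
  obtain ⟨b, hb0, hb1⟩ := exists_basis hw₁
  have hon : ∀ i j : Fin 3, ⟪b i, b j⟫ = if i = j then (1 : ℝ) else 0 :=
    orthonormal_iff_ite.mp b.orthonormal
  have h11 : ⟪b 1, b 1⟫ = 1 := by rw [hon]; simp
  have h22 : ⟪b 2, b 2⟫ = 1 := by rw [hon]; simp
  have h21 : ⟪b 2, b 1⟫ = 0 := by rw [hon]; simp
  have hOP1 : OP a (b 1) := by rw [hb1]; exact hw₁
  have hOP2 : OP a (b 2) := by
    refine ⟨ha, b.norm_eq_one 2, ?_⟩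
    rw [← hb0, hon]; simp
  have hw12 : ⟪b 1, b 2⟫ = 0 := by rw [hon]; simp
  have hempty : ¬ (interior {ψ : ℝ | SymR K a (Real.cos ψ • b 1 + Real.sin ψ • b 2)}).Nonempty := by
    intro h
    have := hG2S K a (b 1) (b 2) hOP1 hOP2 hw12 h 0
    rw [Real.cos_zero, Real.sin_zero, one_smul, zero_smul, add_zero, hb1] at this
    exact hw₁' this
  obtain ⟨α, hα⟩ : ∃ α : ℝ, α = ⟪a, q - x⟫ := ⟨_, rfl⟩
  obtain ⟨v, hv⟩ : ∃ v : E3, v = (q - x) - α • a := ⟨_, rfl⟩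
  have hv1 : ⟪m₁, v⟫ < 0 := by
    rw [hv, inner_sub_right, inner_smul_right, ha1, mul_zero, sub_zero, inner_sub_right]
    have := inner_lt_of_interior hm₁0 h₁ hq
    linarith
  have hv0 : v ≠ 0 := by
    intro h; rw [h, inner_zero_right] at hv1; exact lt_irrefl _ hv1
  have hβ : 0 < ‖v‖ := norm_pos_iff.2 hv0
  have hav : ⟪a, v⟫ = 0 := by
    rw [hv, inner_sub_right, inner_smul_right, real_inner_self_eq_norm_sq, ha, ← hα]
    ring
  obtain ⟨c₁, hc₁⟩ : ∃ c : ℝ, c = ⟪b 1, v⟫ := ⟨_, rfl⟩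
  obtain ⟨c₂, hc₂⟩ : ∃ c : ℝ, c = ⟪b 2, v⟫ := ⟨_, rfl⟩
  have hvexp : v = c₁ • b 1 + c₂ • b 2 := by
    have h := b.sum_repr' v
    rw [Fin.sum_univ_three, hb0, hav, zero_smul, zero_add, ← hc₁, ← hc₂] at h
    exact h.symm
  have hvsq : c₁ ^ 2 + c₂ ^ 2 = ‖v‖ ^ 2 := by
    have h1 : ⟪v, v⟫ = c₁ ^ 2 + c₂ ^ 2 := by
      rw [hvexp, inner_add_left, inner_add_right, inner_add_right]
      simp only [inner_smul_left, inner_smul_right, h11, h22, h21, hw12, conj_trivial]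
      ring
    rw [← h1, real_inner_self_eq_norm_sq]
  obtain ⟨ψ₀, hψ1, hψ2⟩ := exists_angle (x := c₁ / ‖v‖) (y := c₂ / ‖v‖) (by
    rw [div_pow, div_pow, ← add_div, hvsq, div_self (by positivity)])
  have hwv : ‖v‖ • (Real.cos ψ₀ • b 1 + Real.sin ψ₀ • b 2) = v := by
    rw [hψ1, hψ2, smul_add, smul_smul, smul_smul, mul_div_cancel₀ _ hβ.ne',
      mul_div_cancel₀ _ hβ.ne']
    exact hvexp.symm
  have hOopen : IsOpen {ψ : ℝ | x + ‖v‖ • (Real.cos ψ • b 1 + Real.sin ψ • b 2) + α • a ∈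
      interior K} := by
    have hc : Continuous fun ψ : ℝ =>
        x + ‖v‖ • (Real.cos ψ • b 1 + Real.sin ψ • b 2) + α • a := by fun_prop
    exact isOpen_interior.preimage hc
  have hOmem : ψ₀ ∈ {ψ : ℝ | x + ‖v‖ • (Real.cos ψ • b 1 + Real.sin ψ • b 2) + α • a ∈
      interior K} := by
    rw [mem_ofPred_eq, hwv, hv]
    have : x + (q - x - α • a) + α • a = q := by abel
    rw [this]
    exact hq
  obtain ⟨ψ, hψO, hψS⟩ : ∃ ψ : ℝ,
      x + ‖v‖ • (Real.cos ψ • b 1 + Real.sin ψ • b 2) + α • a ∈ interior K ∧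
      ¬ SymR K a (Real.cos ψ • b 1 + Real.sin ψ • b 2) := by
    by_contra hcon
    push Not at hcon
    apply hempty
    exact ⟨ψ₀, mem_interior.2 ⟨_, fun ψ hψ => hcon ψ hψ, hOopen, hOmem⟩⟩
  refine ⟨Real.cos ψ • b 1 + Real.sin ψ • b 2, ‖v‖, α, hβ, ?_, ?_, hψS, hψO⟩
  · have h : ‖Real.cos ψ • b 1 + Real.sin ψ • b 2‖ ^ 2 = 1 := by
      rw [← real_inner_self_eq_norm_sq, inner_add_left, inner_add_right, inner_add_right]
      simp only [inner_smul_left, inner_smul_right, h11, h22, h21, hw12, conj_trivial]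
      have := Real.sin_sq_add_cos_sq ψ
      linarith
    have h2 := norm_nonneg (Real.cos ψ • b 1 + Real.sin ψ • b 2)
    nlinarith
  · rw [inner_add_right, inner_smul_right, inner_smul_right, hOP1.2.2, hOP2.2.2]
    ring

/-- Perturbation. -/
theorem step3 (hCLY : CLYStmt) (hSEG : SEGStmt) {K : Set E3} (hK : IsConvexBody K)
    {x m₁ m₂ a w₀ : E3} {α β : ℝ} (hβ : 0 < β)
    (hm₁ : ‖m₁‖ = 1) (hm₂ : ‖m₂‖ = 1) (hne : m₁ ≠ m₂)
    (h₁ : ∀ q ∈ K, ⟪m₁, q⟫ ≤ ⟪m₁, x⟫) (h₂ : ∀ q ∈ K, ⟪m₂, q⟫ ≤ ⟪m₂, x⟫)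
    (ha : ‖a‖ = 1) (ha1 : ⟪m₁, a⟫ = 0) (ha2 : ⟪m₂, a⟫ = 0) (hw₀n : ‖w₀‖ = 1)
    (haw₀ : ⟪a, w₀⟫ = 0) (hψS : ¬ SymR K a w₀) (hψO : x + β • w₀ + α • a ∈ interior K) :
    ∃ u w : E3, OP u w ∧ NoSegU K u ∧ ¬ SymR K u w ∧ 0 < ⟪m₁, u⟫ ∧ ⟪m₂, u⟫ < 0 ∧
      ⟪m₁, w⟫ < 0 ∧ ⟪m₂, w⟫ < 0 ∧ x + β • w + α • u ∈ interior K := by
  have hm₁0 : m₁ ≠ 0 := by
    intro h; rw [h, norm_zero] at hm₁; exact zero_ne_one hm₁
  have hm₂0 : m₂ ≠ 0 := by
    intro h; rw [h, norm_zero] at hm₂; exact zero_ne_one hm₂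
  obtain ⟨g, hg⟩ : ∃ g : ℝ, g = ⟪m₁, m₂⟫ := ⟨_, rfl⟩
  have hg1 : g < 1 := by
    rw [hg]
    exact (inner_lt_one_iff_real_of_norm_eq_one hm₁ hm₂).2 hne
  have hm11 : ⟪m₁, m₁⟫ = 1 := by rw [real_inner_self_eq_norm_sq, hm₁, one_pow]
  have hm22 : ⟪m₂, m₂⟫ = 1 := by rw [real_inner_self_eq_norm_sq, hm₂, one_pow]
  have hm21 : ⟪m₂, m₁⟫ = g := by rw [real_inner_comm, hg]
  have hneg1 : ⟪m₁, w₀⟫ < 0 := by
    have h := inner_lt_of_interior hm₁0 h₁ hψO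
    rw [inner_add_right, inner_add_right, inner_smul_right, inner_smul_right, ha1] at h
    have h5 : β * ⟪m₁, w₀⟫ < 0 := by linarith
    by_contra h6
    push Not at h6
    have := mul_nonneg hβ.le h6
    linarith
  have hneg2 : ⟪m₂, w₀⟫ < 0 := by
    have h := inner_lt_of_interior hm₂0 h₂ hψO
    rw [inner_add_right, inner_add_right, inner_smul_right, inner_smul_right, ha2] at h
    have h5 : β * ⟪m₂, w₀⟫ < 0 := by linarith
    by_contra h6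
    push Not at h6
    have := mul_nonneg hβ.le h6
    linarith
  obtain ⟨W, hW⟩ : ∃ W : E3 → E3,
      ∀ u, W u = ‖w₀ - ⟪w₀, u⟫ • u‖⁻¹ • (w₀ - ⟪w₀, u⟫ • u) := ⟨_, fun _ => rfl⟩
  have hWa : W a = w₀ := by
    rw [hW, real_inner_comm, haw₀, zero_smul, sub_zero, hw₀n, inv_one, one_smul]
  have hWc : ContinuousAt W a := by
    have h1 : Continuous fun u : E3 => w₀ - ⟪w₀, u⟫ • u := by fun_prop
    have h2 : ContinuousAt
        (fun u : E3 => ‖w₀ - ⟪w₀, u⟫ • u‖⁻¹ • (w₀ - ⟪w₀, u⟫ • u)) a := by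
      refine ContinuousAt.smul (ContinuousAt.inv₀ h1.norm.continuousAt ?_) h1.continuousAt
      rw [real_inner_comm, haw₀, zero_smul, sub_zero, hw₀n]
      exact one_ne_zero
    rwa [← funext hW] at h2
  have p1 : ∀ᶠ u in 𝓝 a, ⟪m₁, W u⟫ < 0 := by
    have h1 : ContinuousAt (fun u => ⟪m₁, W u⟫) a := continuousAt_const.inner hWc
    refine h1.eventually_lt continuousAt_const ?_
    rw [hWa]; exact hneg1
  have p2 : ∀ᶠ u in 𝓝 a, ⟪m₂, W u⟫ < 0 := by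
    have h1 : ContinuousAt (fun u => ⟪m₂, W u⟫) a := continuousAt_const.inner hWc
    refine h1.eventually_lt continuousAt_const ?_
    rw [hWa]; exact hneg2
  have p3 : ∀ᶠ u in 𝓝 a, x + β • W u + α • u ∈ interior K := by
    have c1 : ContinuousAt (fun u : E3 => β • W u) a := hWc.const_smul β
    have c2 : ContinuousAt (fun u : E3 => α • u) a := (continuous_const_smul α).continuousAt
    have c3 : ContinuousAt (fun _ : E3 => x) a := continuousAt_const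
    have h1 : ContinuousAt (fun u : E3 => x + β • W u + α • u) a := (c3.add c1).add c2
    refine h1.eventually_mem (isOpen_interior.mem_nhds ?_)
    rw [hWa]; exact hψO
  have p4 : ∀ᶠ u in 𝓝 a, ¬ (OP u (W u) ∧ SymR K u (W u)) := by
    have hcl := hCLY K hK
    have h1 : ContinuousAt (fun u => (u, W u)) a := continuousAt_id.prodMk hWc
    have h2 : (fun u => (u, W u)) a ∈ {p : E3 × E3 | OP p.1 p.2 ∧ SymR K p.1 p.2}ᶜ := by
      show (a, W a) ∈ {p : E3 × E3 | OP p.1 p.2 ∧ SymR K p.1 p.2}ᶜ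
      rw [hWa]
      exact fun h => hψS h.2
    exact h1.eventually_mem (hcl.isOpen_compl.mem_nhds h2)
  obtain ⟨δ, hδ, hP⟩ := Metric.eventually_nhds_iff.1 (p1.and (p2.and (p3.and p4)))
  -- the direction `u`
  obtain ⟨U, hUdef⟩ : ∃ U : ℝ → E3,
      ∀ ε, U ε = ‖a + ε • (m₁ - m₂)‖⁻¹ • (a + ε • (m₁ - m₂)) := ⟨_, fun _ => rfl⟩
  have hUc : ContinuousAt U 0 := by
    have h1 : Continuous fun ε : ℝ => a + ε • (m₁ - m₂) := by fun_prop
    have h2 : ContinuousAt (fun ε : ℝ => ‖a + ε • (m₁ - m₂)‖⁻¹ • (a + ε • (m₁ - m₂))) 0 := by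
      refine ContinuousAt.smul (ContinuousAt.inv₀ h1.norm.continuousAt ?_) h1.continuousAt
      rw [zero_smul, add_zero, ha]
      exact one_ne_zero
    rwa [← funext hUdef] at h2
  have hU0 : U 0 = a := by
    rw [hUdef, zero_smul, add_zero, ha, inv_one, one_smul]
  obtain ⟨ρ, hρ, hUρ⟩ := Metric.continuousAt_iff.1 hUc (δ / 2) (half_pos hδ)
  obtain ⟨ε, hε⟩ : ∃ ε : ℝ, ε = ρ / 2 := ⟨_, rfl⟩
  have hεpos : 0 < ε := by rw [hε]; exact half_pos hρ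
  have hUε : dist (U ε) a < δ / 2 := by
    have := hUρ (x := ε) (by rw [Real.dist_eq, sub_zero, abs_of_pos hεpos]; linarith)
    rwa [hU0] at this
  have haε : a + ε • (m₁ - m₂) ≠ 0 := by
    intro h
    have h1 : ⟪a, a + ε • (m₁ - m₂)⟫ = 1 := by
      rw [inner_add_right, inner_smul_right, inner_sub_right, real_inner_comm m₁ a, ha1,
        real_inner_comm m₂ a, ha2, real_inner_self_eq_norm_sq, ha]
      ring
    rw [h, inner_zero_right] at h1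
    exact zero_ne_one h1
  have hnε : 0 < ‖a + ε • (m₁ - m₂)‖⁻¹ := inv_pos.2 (norm_pos_iff.2 haε)
  have hUn : ‖U ε‖ = 1 := by
    rw [hUdef, norm_smul, norm_inv, norm_norm, inv_mul_cancel₀ (norm_ne_zero_iff.2 haε)]
  have hU1 : 0 < ⟪m₁, U ε⟫ := by
    rw [hUdef, inner_smul_right, inner_add_right, ha1, inner_smul_right, inner_sub_right, hm11,
      ← hg]
    have : 0 < ε * (1 - g) := mul_pos hεpos (by linarith)
    rw [zero_add]
    exact mul_pos hnε this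
  have hU2 : ⟪m₂, U ε⟫ < 0 := by
    rw [hUdef, inner_smul_right, inner_add_right, ha2, inner_smul_right, inner_sub_right, hm22,
      hm21]
    have : ε * (g - 1) < 0 := mul_neg_of_pos_of_neg hεpos (by linarith)
    rw [zero_add]
    exact mul_neg_of_pos_of_neg hnε this
  have c1 : Continuous fun u : E3 => ⟪m₁, u⟫ := by fun_prop
  have c2 : Continuous fun u : E3 => ⟪m₂, u⟫ := by fun_prop
  have q1 : ∀ᶠ u in 𝓝 (U ε), 0 < ⟪m₁, u⟫ := continuousAt_const.eventually_lt c1.continuousAt hU1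
  have q2 : ∀ᶠ u in 𝓝 (U ε), ⟪m₂, u⟫ < 0 := c2.continuousAt.eventually_lt continuousAt_const hU2
  obtain ⟨δ', hδ', hQ⟩ := Metric.eventually_nhds_iff.1 (q1.and q2)
  obtain ⟨u, hu, hu', hNSU'⟩ := hSEG K (U ε) (min (δ / 2) δ') hK hUn (lt_min (half_pos hδ) hδ')
  have hua : dist u a < δ := by
    have h1 := dist_triangle u (U ε) a
    have h2 : dist u (U ε) < δ / 2 := by
      rw [dist_eq_norm]; exact hu'.trans_le (min_le_left _ _)
    linarith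
  obtain ⟨k1, k2, k3, k4⟩ := hP hua
  obtain ⟨l1, l2⟩ := hQ (y := u) (by rw [dist_eq_norm]; exact hu'.trans_le (min_le_right _ _))
  have hne0 : w₀ - ⟪w₀, u⟫ • u ≠ 0 := by
    intro h
    rw [hW, h, smul_zero, inner_zero_right] at k1
    exact lt_irrefl _ k1
  have hOPu : OP u (W u) := by
    refine ⟨hu, ?_, ?_⟩
    · rw [hW, norm_smul, norm_inv, norm_norm, inv_mul_cancel₀ (norm_ne_zero_iff.2 hne0)]
    · rw [hW, inner_smul_right, inner_sub_right, inner_smul_right, real_inner_self_eq_norm_sq, hu,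
        real_inner_comm]
      ring
  exact ⟨u, W u, hOPu, hNSU', fun h => k4 ⟨hOPu, h⟩, l1, l2, k1, k2, k3⟩

/-- The main part: two different unit normals at a point. -/
theorem part2 (hUNV : UNVStmt) (hCRT : CRTStmt) (hSLP : SLPStmt) (hTLB : TLBStmt)
    (hCMT : CMTStmt) (hCLS : CLSStmt) (hG2S : G2SStmt) (hCLY : CLYStmt) (hSAR : SARStmt)
    (hSEG : SEGStmt) (hNSU : NSUStmt) (hPMH : PMHStmt) (hSGB : SGBStmt)
    {K : Set E3} (hU : Unver K) (hI : IsoPos K) {x m₁ m₂ : E3} (hx : x ∈ K)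
    (hm₁ : ‖m₁‖ = 1) (hm₂ : ‖m₂‖ = 1) (hne : m₁ ≠ m₂) (hne' : m₁ ≠ -m₂)
    (h₁ : ∀ q ∈ K, ⟪m₁, q⟫ ≤ ⟪m₁, x⟫) (h₂ : ∀ q ∈ K, ⟪m₂, q⟫ ≤ ⟪m₂, x⟫) : False := by
  obtain ⟨a, ha, ha1, ha2⟩ := exists_ortho m₁ m₂
  have hK := hU.1
  have hm₁0 : m₁ ≠ 0 := by
    intro h; rw [h, norm_zero] at hm₁; exact zero_ne_one hm₁
  obtain ⟨w₁, hw₁, hw₁'⟩ := step1 hK hx hm₁ hm₂ hne hne' h₁ h₂ ha ha1 ha2
  obtain ⟨w₀, β, α, hβ, hw₀n, haw₀, hψS, hψO⟩ := step2 hG2S hK hm₁0 h₁ ha ha1 hw₁ hw₁'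
  obtain ⟨u, w, hOPu, hNSU', hnS, l1, l2, k1, k2, k3⟩ :=
    step3 hCLY hSEG hK hβ hm₁ hm₂ hne h₁ h₂ ha ha1 ha2 hw₀n haw₀ hψS hψO
  obtain ⟨b', hb'0, hb'1⟩ := exists_basis hOPu
  obtain ⟨r₁, hr₁⟩ : ∃ r : ℝ, r = -⟪m₁, w⟫ / ⟪m₁, u⟫ := ⟨_, rfl⟩
  obtain ⟨r₂, hr₂⟩ : ∃ r : ℝ, r = -⟪m₂, w⟫ / (-⟪m₂, u⟫) := ⟨_, rfl⟩
  have hr₁pos : 0 < r₁ := by rw [hr₁]; exact div_pos (by linarith) l1
  have hr₂pos : 0 < r₂ := by rw [hr₂]; exact div_pos (by linarith) (by linarith)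
  refine part1 hUNV hCRT hSLP hTLB hCMT hCLS hSAR hNSU hPMH hSGB hU hI b'
    (by rw [hb'0]; exact hNSU') (by rw [hb'0, hb'1]; exact hnS) hx (κ := r₁ + r₂)
    (by positivity) ?_ ?_
  · intro y t hyt
    rw [hb'0, hb'1] at hyt
    have j1 := h₁ _ hyt
    have j2 := h₂ _ hyt
    rw [inner_add_right, inner_add_right, inner_smul_right, inner_smul_right] at j1 j2
    have i1 : y ≤ r₁ * t := by
      rw [hr₁, div_mul_eq_mul_div, le_div_iff₀ l1]
      linarith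
    have i2 : -y ≤ r₂ * t := by
      rw [hr₂, div_mul_eq_mul_div, le_div_iff₀ (by linarith)]
      linarith
    have i3 : 0 ≤ t := by
      by_contra h
      push Not at h
      have := mul_neg_of_pos_of_neg hr₁pos h
      have := mul_neg_of_pos_of_neg hr₂pos h
      linarith
    have i4 := mul_nonneg hr₁pos.le i3
    have i5 := mul_nonneg hr₂pos.le i3
    rw [abs_le]
    constructor <;> linarith
  · refine ⟨α, β, ?_⟩
    rw [hb'0, hb'1]
    have : x + α • u + β • w = x + β • w + α • u := by abel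
    rw [this]
    exact k3

end C1Aa

open C1Aa in
theorem t_c1a (hUNV : UNVStmt) (hCRT : CRTStmt) (hSLP : SLPStmt) (hTLB : TLBStmt)
    (hCMT : CMTStmt) (hCLS : CLSStmt) (hG2S : G2SStmt) (hCLY : CLYStmt) (hSAR : SARStmt)
    (hSEG : SEGStmt) (hNSU : NSUStmt) (hPMH : PMHStmt) (hSGB : SGBStmt) : C1AStmt := by
  intro K hU hI x hx f g hf hg hfx hgx
  set n₁ : E3 := (InnerProductSpace.toDual ℝ E3).symm f with hn₁
  set n₂ : E3 := (InnerProductSpace.toDual ℝ E3).symm g with hn₂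
  have hf' : ∀ y, f y = ⟪n₁, y⟫ := fun y => by
    rw [hn₁, InnerProductSpace.toDual_symm_apply]
  have hg' : ∀ y, g y = ⟪n₂, y⟫ := fun y => by
    rw [hn₂, InnerProductSpace.toDual_symm_apply]
  have hn₁0 : n₁ ≠ 0 := by
    intro h
    apply hf
    ext y
    rw [hf', h, inner_zero_left]
    rfl
  have hn₂0 : n₂ ≠ 0 := by
    intro h
    apply hg
    ext y
    rw [hg', h, inner_zero_left]
    rfl
  have hp₁ : 0 < ‖n₁‖ := norm_pos_iff.2 hn₁0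
  have hp₂ : 0 < ‖n₂‖ := norm_pos_iff.2 hn₂0
  by_contra hcon
  have hK := hU.1
  obtain ⟨q, hq⟩ := hK.2.2
  refine part2 hUNV hCRT hSLP hTLB hCMT hCLS hG2S hCLY hSAR hSEG hNSU hPMH hSGB hU hI
    (x := x) (m₁ := ‖n₁‖⁻¹ • n₁) (m₂ := ‖n₂‖⁻¹ • n₂) hx
    (by rw [norm_smul, norm_inv, norm_norm, inv_mul_cancel₀ hp₁.ne'])
    (by rw [norm_smul, norm_inv, norm_norm, inv_mul_cancel₀ hp₂.ne']) ?_ ?_ ?_ ?_
  · intro h
    apply hcon
    refine ⟨‖n₂‖ / ‖n₁‖, by positivity, ?_⟩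
    ext y
    show g y = ‖n₂‖ / ‖n₁‖ * f y
    rw [hf', hg']
    have h1 : n₂ = (‖n₂‖ / ‖n₁‖) • n₁ := by
      have h2 : ‖n₂‖ • (‖n₁‖⁻¹ • n₁) = ‖n₂‖ • (‖n₂‖⁻¹ • n₂) := by rw [h]
      rw [smul_smul, smul_smul, mul_inv_cancel₀ hp₂.ne', one_smul] at h2
      rw [div_eq_mul_inv]
      exact h2.symm
    conv_lhs => rw [h1]
    rw [inner_smul_left]
    simp
  · intro h
    have h1 : n₁ = (-(‖n₁‖ / ‖n₂‖)) • n₂ := by
      have h2 : ‖n₁‖ • (‖n₁‖⁻¹ • n₁) = ‖n₁‖ • (-(‖n₂‖⁻¹ • n₂)) := by rw [h]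
      rw [smul_smul, mul_inv_cancel₀ hp₁.ne', one_smul, smul_neg, smul_smul] at h2
      rw [neg_smul, div_eq_mul_inv]
      exact h2
    have h3 := inner_lt_of_interior hn₁0 (fun z hz => by
      have := hfx z hz
      rwa [hf', hf'] at this) hq
    have h4 := hgx q (interior_subset hq)
    rw [hg', hg'] at h4
    rw [h1, inner_smul_left, inner_smul_left] at h3
    simp only [conj_trivial] at h3
    have h5 : 0 < ‖n₁‖ / ‖n₂‖ := div_pos hp₁ hp₂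
    nlinarith
  · intro y hy
    rw [inner_smul_left, inner_smul_left]
    have := hfx y hy
    rw [hf', hf'] at this
    simp only [conj_trivial]
    exact mul_le_mul_of_nonneg_left this (inv_pos.2 hp₁).le
  · intro y hy
    rw [inner_smul_left, inner_smul_left]
    have := hgx y hy
    rw [hg', hg'] at this
    simp only [conj_trivial]
    exact mul_le_mul_of_nonneg_left this (inv_pos.2 hp₂).le

end Pool.XR2
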