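import Pool.Agent.H27.XR2.DSU

/-!
# XR2, rows DSP and UDP
-/

set_option autoImplicit false

open MeasureTheory Set Filter Topology Metric Asymptotics
open scoped Real ENNReal

namespace Pool.XR2

open Pool.Agent.H45.XR

namespace DSUa

theorem bd_of_body {C : Set ℂ} (hC : Body C) : ∃ r > 0, ∃ R > 0, Bd r R C := by
  obtain ⟨r, hr, h1⟩ := A2.rad_ge hC
  obtain ⟨R, hR, h2⟩ := Pool.Agent.H45.XR.rad_le hC
  refine ⟨r, hr, R, hR, hC, ?_, ?_⟩
  · intro z hz
    rw [mem_ball_zero_iff] at hz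
    rw [← Complex.norm_mul_exp_arg_mul_I z]
    exact (mem_iff_le_rad hC z.arg (norm_nonneg z)).2 (hz.le.trans (h1 _))
  · intro z hz
    rw [mem_closedBall_zero_iff]
    rw [← Complex.norm_mul_exp_arg_mul_I z] at hz
    exact ((mem_iff_le_rad hC z.arg (norm_nonneg z)).1 hz).trans (h2 _)

theorem bd_mono {C : Set ℂ} {r R r' R' : ℝ} (h : Bd r R C) (hr : r' ≤ r) (hR : R ≤ R') :
    Bd r' R' C :=
  ⟨h.body, (ball_subset_ball hr).trans h.inn, h.out.trans (closedBall_subset_closedBall hR)⟩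

theorem continuous_pt {C : Set ℂ} (hC : Body C) : Continuous (pt C) := by
  obtain ⟨L, hL⟩ := pt_lipschitz hC
  exact hL.continuous

theorem continuous_orbC {C : Set ℂ} {φ₀ φ₁ : ℝ} (h0 : Continuous (fl C φ₀))
    (h1 : Continuous (fl C φ₁)) (n : ℕ) : Continuous fun x => orbC C φ₀ φ₁ x n := by
  induction n with
  | zero => exact continuous_id
  | succ n ih =>
    have h2 : (fun x => orbC C φ₀ φ₁ x (n + 1)) =
        fun x => fl C (if Even n then φ₀ else φ₁) (orbC C φ₀ φ₁ x n) := by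
      funext x
      rw [orbC_succ]
    rw [h2]
    split_ifs
    · exact h0.comp ih
    · exact h1.comp ih

theorem continuous_TT {C : Set ℂ} {φ₀ φ₁ : ℝ} (h0 : Continuous (fl C φ₀))
    (h1 : Continuous (fl C φ₁)) : Continuous (TT C φ₀ φ₁) := h1.comp h0

theorem continuous_dsp {C : Set ℂ} {φ₀ φ₁ : ℝ} (h0 : Continuous (fl C φ₀))
    (h1 : Continuous (fl C φ₁)) (p : ℤ) (q : ℕ) : Continuous (dsp C φ₀ φ₁ p q) := by
  unfold dsp
  have := (continuous_TT h0 h1).iterate q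
  fun_prop

theorem gd_eventually {C : Set ℂ} (hC : Body C) {φ₀ φ₁ : ℝ} (h0 : Continuous (fl C φ₀))
    (h1 : Continuous (fl C φ₁)) {q : ℕ} {κ z : ℝ} (hκ : 0 < κ) (h : Gd C φ₀ φ₁ q κ z) :
    ∀ᶠ x in 𝓝 z, Gd C φ₀ φ₁ q (κ / 2) x := by
  have key : ∀ n ∈ Finset.range (2 * q), ∀ᶠ x in 𝓝 z,
      Lv C (if Even n then φ₀ else φ₁) (κ / 2) (orbC C φ₀ φ₁ x n) := by
    intro n hn
    obtain ⟨⟨u, hu, hu'⟩, ⟨v, hv, hv'⟩⟩ := h n (Finset.mem_range.1 hn)
    set ψ := if Even n then φ₀ else φ₁ with hψ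
    have hc : Continuous fun x => tc ψ (pt C (orbC C φ₀ φ₁ x n)) :=
      (continuous_tc ψ).comp ((continuous_pt hC).comp (continuous_orbC h0 h1 n))
    have e1 : ∀ᶠ x in 𝓝 z, tc ψ u + κ / 2 < tc ψ (pt C (orbC C φ₀ φ₁ x n)) :=
      (continuous_const.tendsto z).eventually_lt hc.continuousAt (by linarith)
    have e2 : ∀ᶠ x in 𝓝 z, tc ψ (pt C (orbC C φ₀ φ₁ x n)) < tc ψ v - κ / 2 :=
      hc.continuousAt.eventually_lt (continuous_const.tendsto z) (by linarith)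
    filter_upwards [e1, e2] with x hx1 hx2
    exact ⟨⟨u, hu, hx1.le⟩, ⟨v, hv, by linarith⟩⟩
  have := (Filter.eventually_all_finset (Finset.range (2 * q))).2 key
  filter_upwards [this] with x hx n hn
  exact hx n (Finset.mem_range.2 hn)

end DSUa

open DSUa in
theorem t_dsp (hDSU : DSUStmt) (hFLB : FLBStmt) : DSPStmt := by
  intro C C' φ₀ φ₁ p q z hPM hq hrot hgd hE
  obtain ⟨κ, hκ, hgd⟩ := hgd
  obtain ⟨r₁, hr₁, R₁, -, hb1⟩ := bd_of_body hPM.b
  obtain ⟨r₂, hr₂, R₂, -, hb2⟩ := bd_of_body hPM.b'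
  have hB1 : Bd (min r₁ r₂) (max R₁ R₂) C := bd_mono hb1 (min_le_left _ _) (le_max_left _ _)
  have hB2 : Bd (min r₁ r₂) (max R₁ R₂) C' := bd_mono hb2 (min_le_right _ _) (le_max_right _ _)
  obtain ⟨ε, hε, B, hB, hD⟩ := hDSU (min r₁ r₂) (max R₁ R₂) (κ / 2) q (lt_min hr₁ hr₂)
    (half_pos hκ) hq
  have hc0 : Continuous (fl C φ₀) := (hFLB C φ₀ hPM.b hPM.n0).1
  have hc1 : Continuous (fl C φ₁) := (hFLB C φ₁ hPM.b hPM.n1).1
  have hqc : Continuous fun x => rad C' x - rad C x := (cont_rad hPM.b').sub (cont_rad hPM.b)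
  have e1 := gd_eventually hPM.b hc0 hc1 hκ hgd
  have e2 : ∀ᶠ x in 𝓝 z, ∀ n ∈ Finset.range (2 * q + 1),
      |rad C' (orbC C φ₀ φ₁ x n) - rad C (orbC C φ₀ φ₁ x n)| < ε := by
    rw [Filter.eventually_all_finset]
    intro n hn
    have h1 : Continuous fun x => |rad C' (orbC C φ₀ φ₁ x n) - rad C (orbC C φ₀ φ₁ x n)| :=
      (hqc.comp (continuous_orbC hc0 hc1 n)).abs
    have h2 : rad C (orbC C φ₀ φ₁ z n) = rad C' (orbC C φ₀ φ₁ z n) :=
      hE n (by have := Finset.mem_range.1 hn; omega)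
    refine h1.continuousAt.eventually_lt (continuous_const.tendsto z) ?_
    rw [h2, sub_self, abs_zero]
    exact hε
  obtain ⟨δ₀, hδ₀, h3⟩ := Metric.eventually_nhds_iff.1 (e1.and e2)
  have hz0 : rad C z = rad C' z := hE 0 (by omega)
  have e3 : ∀ᶠ x in 𝓝 z, B * |rad C' x - rad C x| < δ₀ / 2 := by
    have h1 : Continuous fun x => B * |rad C' x - rad C x| := continuous_const.mul hqc.abs
    refine h1.continuousAt.eventually_lt (continuous_const.tendsto z) ?_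
    rw [hz0, sub_self, abs_zero, mul_zero]
    exact half_pos hδ₀
  obtain ⟨δ₁, hδ₁, h4⟩ := Metric.eventually_nhds_iff.1 e3
  refine ⟨min (δ₀ / 2) δ₁, lt_min (half_pos hδ₀) hδ₁, B, hB, ?_⟩
  intro x hx hxE
  refine hD C C' φ₀ φ₁ p x (δ₀ / 2) hB1 hB2 hPM hrot hxE (half_pos hδ₀) ?_ ?_
  · intro w hw
    have hwz : dist w z < δ₀ := by
      rw [Real.dist_eq]
      have h5 := abs_sub_le w x z
      have h6 := hx.trans_le (min_le_left _ _)
      linarith
    obtain ⟨k1, k2⟩ := h3 hwz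
    exact ⟨k1, fun n hn => (k2 n (Finset.mem_range.2 (by omega))).le⟩
  · apply h4
    rw [Real.dist_eq]
    exact hx.trans_le (min_le_right _ _)

open DSUa in
theorem t_udp (hDSU : DSUStmt) (hFLB : FLBStmt) : UDPStmt := by
  intro r R κ q η hr hκ hq hη
  obtain ⟨ε₀, hε₀, B, hB, hD⟩ := hDSU r R κ q hr hκ hq
  refine ⟨min ε₀ (η / (4 * B)), lt_min hε₀ (by positivity), B, hB, ?_⟩
  intro C C' φ₀ φ₁ p hC hC' hPM hrot hint hq1 x hx
  have hc0 : Continuous (fl C φ₀) := (hFLB C φ₀ hPM.b hPM.n0).1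
  have hc1 : Continuous (fl C φ₁) := (hFLB C φ₁ hPM.b hPM.n1).1
  have hqc : Continuous fun x => rad C' x - rad C x := (cont_rad hPM.b').sub (cont_rad hPM.b)
  have hdense : Dense (EE C C')ᶜ := interior_eq_empty_iff_dense_compl.1 hint
  have hcl : IsClosed {y : ℝ | |dsp C φ₀ φ₁ p q y| ≤ B * |rad C' y - rad C y|} :=
    isClosed_le (continuous_dsp hc0 hc1 p q).abs (continuous_const.mul hqc.abs)
  have hmem : x ∈ closure ((EE C C')ᶜ ∩ ball x (η / 2)) := by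
    rw [mem_closure_iff_nhds]
    intro t ht
    have h1 : t ∩ ball x (η / 2) ∈ 𝓝 x := inter_mem ht (ball_mem_nhds x (half_pos hη))
    obtain ⟨y, hy1, hy2⟩ := hdense.inter_nhds_nonempty h1
    exact ⟨y, hy2.1, hy1, hy2.2⟩
  refine closure_minimal ?_ hcl hmem
  rintro y ⟨hyE, hyb⟩
  rw [mem_ball, Real.dist_eq] at hyb
  refine hD C C' φ₀ φ₁ p y (η / 2) hC hC' hPM hrot hyE (half_pos hη) ?_ ?_
  · intro z hz
    refine ⟨hx z ?_, fun n _ => (hq1 _).trans (min_le_left _ _)⟩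
    have := abs_sub_le z y x
    linarith
  · have h1 := (hq1 y).trans (min_le_right _ _)
    have h2 := mul_le_mul_of_nonneg_left h1 hB.le
    have h3 : B * (η / (4 * B)) = η / 4 := by field_simp
    linarith

end Pool.XR2
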