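import Pool.Agent.H52.XR2.S2
import Pool.Agent.H27.XR2.UDP

/-!
# XR2, row C1A, part 1: a point with a cone section
-/

set_option autoImplicit false

open MeasureTheory Set Filter Topology Metric Asymptotics
open scoped Real ENNReal RealInnerProductSpace

namespace Pool.XR2

open Pool.Agent.H45.XR

namespace C1Aa

theorem yc0 (z : ℂ) : yc 0 z = z.re := by simp [yc]

theorem tc0 (z : ℂ) : tc 0 z = z.im := by simp [tc]

/-- The coordinates of a point in the plane through `x`. -/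
theorem coord_shift (b : OrthonormalBasis (Fin 3) ℝ E3) (x : E3) (y t : ℝ) :
    coord b ((⟨⟪b 0, x⟫, ⟪b 1, x⟫⟩ : ℂ) + ⟨y, t⟩, ⟪b 2, x⟫) = x + y • b 0 + t • b 1 := by
  have h1 := coord_surj b x
  have h2 : ((⟨⟪b 0, x⟫, ⟪b 1, x⟫⟩ : ℂ) + ⟨y, t⟩, ⟪b 2, x⟫) =
      ((⟨⟪b 0, x⟫, ⟪b 1, x⟫⟩, ⟪b 2, x⟫) : ℂ × ℝ) + ((⟨y, t⟩ : ℂ), (0 : ℝ)) := by
    simp
  rw [h2, coord_add, h1]
  simp [coord, add_assoc]

theorem part1 (hUNV : UNVStmt) (hCRT : CRTStmt) (hSLP : SLPStmt) (hTLB : TLBStmt)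
    (hCMT : CMTStmt) (hCLS : CLSStmt) (hSAR : SARStmt) (hNSU : NSUStmt) (hPMH : PMHStmt)
    (hSGB : SGBStmt) {K : Set E3} (hU : Unver K) (hI : IsoPos K)
    (b : OrthonormalBasis (Fin 3) ℝ E3) (hNS : NoSegU K (b 0)) (hS : ¬ SymR K (b 0) (b 1))
    {x : E3} (hx : x ∈ K) {κ : ℝ} (hκ : 0 < κ)
    (hcone : ∀ y t : ℝ, x + y • b 0 + t • b 1 ∈ K → |y| ≤ κ * t)
    (hint : ∃ y t : ℝ, x + y • b 0 + t • b 1 ∈ interior K) : False := by
  set L : Set (ℂ × ℝ) := coordE b ⁻¹' K with hLdef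
  have hL : Body3 L := body3_preimage b hU.1
  have hintL : interior L = coordE b ⁻¹' interior K :=
    ((coordE b).toHomeomorph.preimage_interior K).symm
  set c₀ : ℂ := ⟨⟪b 0, x⟫, ⟪b 1, x⟫⟩ with hc₀
  set h₀ : ℝ := ⟪b 2, x⟫ with hh₀
  have hH : h₀ ∈ Hts L := by
    obtain ⟨y, t, hyt⟩ := hint
    refine ⟨c₀ + ⟨y, t⟩, ?_⟩
    rw [hintL, mem_preimage, coordE_apply, hc₀, hh₀, coord_shift]
    exact hyt
  have hN : NSH L 0 := hNSU K b hU.1 hNS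
  set C := Cq L h₀ with hC
  have hCb : Body C := body_Cq hL hH
  have hCn : NoSeg C 0 := hN h₀ hH
  set m := cen (sec L h₀) with hm
  have hcC : c₀ - m ∈ C := by
    rw [hC, Cq, mem_tr, ← hm, sub_add_cancel]
    show (c₀, h₀) ∈ L
    rw [hLdef, mem_preimage, coordE_apply, hc₀, hh₀, coord_surj]
    exact hx
  have hcone' : ∀ z ∈ C, |yc 0 (z - (c₀ - m))| ≤ κ * tc 0 (z - (c₀ - m)) := by
    intro z hz
    rw [hC, Cq, mem_tr, ← hm] at hz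
    have hz' : (z + m, h₀) ∈ L := hz
    rw [hLdef, mem_preimage, coordE_apply] at hz'
    have h1 : z + m = (⟨⟪b 0, x⟫, ⟪b 1, x⟫⟩ : ℂ) +
        ⟨(z - (c₀ - m)).re, (z - (c₀ - m)).im⟩ := by
      rw [← hc₀]
      apply Complex.ext
      · simp
        ring
      · simp
        ring
    rw [h1, hh₀, coord_shift] at hz'
    rw [yc0, tc0]
    exact hcone _ _ hz'
  obtain ⟨r, hr, R, -, hbd⟩ := DSUa.bd_of_body hCb
  obtain ⟨A, hA, θ₁, hθ₁, hslp⟩ := hSLP r R hr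
  obtain ⟨θ₂, hθ₂, hcmt⟩ := hCMT C 0 κ A (c₀ - m) hCb hCn hκ hcC hcone'
  obtain ⟨θ₃, hθ₃, htlb⟩ := hTLB r R A (1 / 4) hr (by norm_num)
  -- good angles
  have hdense := MeasureTheory.Measure.dense_of_ae (hCRT L 0 hL hN)
  have hex : ∀ n : ℕ, ∃ θ : ℝ, 0 < θ ∧ θ < θ₁ ∧ θ < θ₂ ∧ θ < θ₃ ∧ θ < π ∧ θ < 1 / ((n : ℝ) + 1) ∧
      NSH L θ ∧ ∀ K', Mate L K' 0 θ → K' ≠ L →
        ∃ τ : ℝ, 0 < τ ∧ τ < 1 ∧ ∀ h ∈ Hts L, rot3 L K' 0 θ h = τ := by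
    intro n
    have hpos : 0 < min θ₁ (min θ₂ (min θ₃ (min π (1 / ((n : ℝ) + 1))))) := by
      refine lt_min hθ₁ (lt_min hθ₂ (lt_min hθ₃ (lt_min Real.pi_pos (by positivity))))
    obtain ⟨θ, hθ, hθ'⟩ := hdense.exists_mem_open isOpen_Ioo (nonempty_Ioo.2 hpos)
    obtain ⟨h1, h2⟩ := hθ'
    rw [lt_min_iff, lt_min_iff, lt_min_iff, lt_min_iff] at h2
    obtain ⟨h3, h4, h5, h6, h7⟩ := h2
    obtain ⟨h8, h9⟩ := hθ h1 (by linarith)
    exact ⟨θ, h1, h3, h4, h5, h6, h7, h8, h9⟩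
  choose θ hθ0 hθ1 hθ2 hθ3 hθπ hθn hθN hθT using hex
  have hSg : Sg 0 L = L := (hSGB L hL).2.1
  have hU3 : Unv3 L := hUNV K hU b
  have hmate : ∀ n, ∃ K', Mate L K' 0 (θ n) ∧ K' ≠ L := by
    intro n
    have := hU3 0 0 (θ n) (hθ0 n) (by linarith [hθπ n])
    rwa [hSg] at this
  choose K' hK' hne using hmate
  have hτ : ∀ n, ∃ τ : ℝ, 0 < τ ∧ ∀ h ∈ Hts L, rot3 L (K' n) 0 (θ n) h = τ := by
    intro n
    obtain ⟨τ, h1, -, h2⟩ := hθT n (K' n) (hK' n) (hne n)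
    exact ⟨τ, h1, h2⟩
  choose τ hτ0 hτ using hτ
  have hlow : ∀ n, 1 / 4 ≤ τ n := by
    intro n
    obtain ⟨-, hP⟩ := hPMH L (K' n) 0 (θ n) hL (hK' n) (hθ0 n) (by linarith [hθπ n]) hN (hθN n)
    obtain ⟨-, hPM, hz⟩ := hP h₀ hH
    have hPM' : PM C (Cq (K' n) h₀) 0 (0 + θ n) := by rwa [zero_add]
    have hrot : rot (C ∩ Cq (K' n) h₀) 0 (0 + θ n) = τ n := by
      rw [zero_add]
      exact hτ n h₀ hH
    rcases hslp C (Cq (K' n) h₀) 0 (θ n) hbd hz hPM' (hθ1 n) with h | h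
    · have h1 := hcmt (θ n) (Cq (K' n) h₀) (hθ2 n) hPM' h
      rw [hrot] at h1
      exact absurd h1 (hτ0 n).ne'
    · have h1 := htlb C (Cq (K' n) h₀) 0 (θ n) hbd hz hPM' (hθ3 n) h
      rw [hrot] at h1
      have := (abs_le.1 h1).1
      linarith
  have hlim : Tendsto θ atTop (𝓝 0) := by
    refine squeeze_zero (fun n => (hθ0 n).le) (fun n => (hθn n).le) ?_
    exact tendsto_one_div_add_atTop_nhds_zero_nat
  have hsym : SymAff L 0 := by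
    refine hCLS L (fun _ => 0) (fun _ => 0) θ τ K' 0 (1 / 4) hL tendsto_const_nhds
      tendsto_const_nhds hlim hθ0 ?_ ?_ ?_ (by norm_num) hlow ?_
    · intro n
      rw [hSg]
      exact hN
    · intro n
      rw [hSg, zero_add]
      exact hθN n
    · intro n
      rw [hSg, zero_add]
      exact hK' n
    · intro n
      rw [hSg, zero_add]
      exact hτ n
  have hfin := hSAR K b 0 hU.1 hI hsym
  rw [dirE_eq, dirE_eq, zero_add, Real.cos_zero, Real.sin_zero, Real.cos_pi_div_two,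
    Real.sin_pi_div_two] at hfin
  simp only [one_smul, zero_smul, add_zero, zero_add] at hfin
  exact hS hfin

end C1Aa

end Pool.XR2
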