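import Pool.Agent.H52.XR2.S1

/-!
# XR2, rows CN1 and CN2: at most one direction `φ₁` closes the chain of a given point
-/

set_option autoImplicit false

open MeasureTheory Set Filter Topology Metric Asymptotics
open scoped Real ENNReal

namespace Pool.XR2

open Pool.Agent.H45.XR

namespace CNa

theorem deg1_int {T : ℝ → ℝ} (hT : Deg1 T) (x : ℝ) (m : ℤ) :
    T (x + m * (2 * π)) = T x + m * (2 * π) := by
  have hp : Function.Periodic (fun x => T x - x) (2 * π) := by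
    intro y
    have := hT.per y
    dsimp only
    linarith
  have h1 := hp.zsmul m x
  rw [zsmul_eq_mul] at h1
  linarith

theorem iter_int {T : ℝ → ℝ} (hT : Deg1 T) {x : ℝ} {m : ℤ} (h : T x = x + m * (2 * π)) (n : ℕ) :
    T^[n] x = x + n * (m * (2 * π)) := by
  induction n with
  | zero => simp
  | succ n ih =>
    rw [Function.iterate_succ_apply', ih]
    have h1 := deg1_int hT x (n * m)
    push_cast at h1
    rw [show x + (n : ℝ) * (m * (2 * π)) = x + n * m * (2 * π) by ring, h1, h]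
    push_cast
    ring

/-- The common argument. -/
theorem strict {C : Set ℂ} {φ₀ φ φ' z : ℝ} {p : ℤ} {q : ℕ} (hFLB : FLBStmt) (hMNF : MNFStmt)
    (hC : Body C) (hn0 : NoSeg C φ₀) (hq : 0 < q) (hn : NoSeg C φ) (hn' : NoSeg C φ')
    (hlt : φ < φ') (hfx : ¬ Fx (fl C φ) (fl C φ₀ z)) (h1 : dsp C φ₀ φ p q z = 0)
    (h2 : dsp C φ₀ φ' p q z = 0) : False := by
  obtain ⟨hD, -⟩ := (hFLB C φ₀ hC hn0).2.2.2.2.2 φ hn
  obtain ⟨hD', -⟩ := (hFLB C φ₀ hC hn0).2.2.2.2.2 φ' hn'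
  have hle : TT C φ₀ φ ≤ TT C φ₀ φ' := fun x => (hMNF C φ φ' (fl C φ₀ x) hC hn hn' hlt).1
  have hst : TT C φ₀ φ z < TT C φ₀ φ' z :=
    (hMNF C φ φ' (fl C φ₀ z) hC hn hn' hlt).2 (Or.inl hfx)
  obtain ⟨n, rfl⟩ : ∃ n, q = n + 1 := ⟨q - 1, by omega⟩
  have h3 : (TT C φ₀ φ)^[n + 1] z < (TT C φ₀ φ')^[n + 1] z := by
    rw [Function.iterate_succ_apply, Function.iterate_succ_apply]
    calc (TT C φ₀ φ)^[n] (TT C φ₀ φ z) < (TT C φ₀ φ)^[n] (TT C φ₀ φ' z) :=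
          (hD.mono.iterate n) hst
      _ ≤ (TT C φ₀ φ')^[n] (TT C φ₀ φ' z) := hD.mono.monotone.iterate_le_of_le hle n _
  unfold dsp at h1 h2
  linarith

end CNa

open CNa in
theorem t_cn1 (hFLB : FLBStmt) (hMNF : MNFStmt) : CN1Stmt := by
  intro C φ₀ z p q hC hn0 hq
  have key : ∀ φ φ' : ℝ, NoSeg C φ → NoSeg C φ' → (∃ κ > 0, Gd C φ₀ φ q κ z) →
      dsp C φ₀ φ p q z = 0 → dsp C φ₀ φ' p q z = 0 → ¬ φ < φ' := by
    rintro φ φ' hn hn' ⟨κ, hκ, hg⟩ h1 h2 hlt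
    have hl := hg 1 (by omega)
    rw [if_neg (by decide)] at hl
    have hfx : ¬ Fx (fl C φ) (fl C φ₀ z) := by
      rw [(hFLB C φ hC hn).2.2.2.2.1]
      refine ⟨κ, hκ, ?_⟩
      have : orbC C φ₀ φ z 1 = fl C φ₀ z := by
        unfold orbC
        rw [orb, if_pos (by decide)]
        rfl
      rwa [this] at hl
    exact strict hFLB hMNF hC hn0 hq hn hn' hlt hfx h1 h2
  rintro φ ⟨-, -, hn, hg, h1⟩ φ' ⟨-, -, hn', hg', h2⟩
  rcases lt_trichotomy φ φ' with h | h | h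
  · exact absurd h (key φ φ' hn hn' hg h1 h2)
  · exact h
  · exact absurd h (key φ' φ hn' hn hg' h2 h1)

open CNa in
theorem t_cn2 (hFLB : FLBStmt) (hMNF : MNFStmt) : CN2Stmt := by
  intro C φ₀ z p q hC hn0 hp hpq hz
  have hq : 0 < q := by omega
  have key : ∀ φ φ' : ℝ, NoSeg C φ → NoSeg C φ' →
      dsp C φ₀ φ p q z = 0 → dsp C φ₀ φ' p q z = 0 → ¬ φ < φ' := by
    intro φ φ' hn hn' h1 h2 hlt
    refine strict hFLB hMNF hC hn0 hq hn hn' hlt ?_ h1 h2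
    rintro ⟨j, hj⟩
    obtain ⟨k, hk⟩ := hz
    obtain ⟨hD, -⟩ := (hFLB C φ₀ hC hn0).2.2.2.2.2 φ hn
    have h3 : TT C φ₀ φ z = z + ((j + k : ℤ) : ℝ) * (2 * π) := by
      unfold TT
      rw [hj, hk]
      push_cast
      ring
    have h4 := iter_int hD h3 q
    unfold dsp at h1
    rw [h4] at h1
    have h5 : ((q * (j + k) - p : ℤ) : ℝ) * (2 * π) = 0 := by
      push_cast at h1 ⊢
      linear_combination h1
    rcases mul_eq_zero.1 h5 with h6 | h6
    · have h7 : (q : ℤ) * (j + k) = p := by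
        have := Int.cast_eq_zero.1 h6
        linarith
      have h8 : (q : ℤ) ∣ p := ⟨_, h7.symm⟩
      have := Int.le_of_dvd hp h8
      omega
    · exact absurd h6 Real.two_pi_pos.ne'
  rintro φ ⟨-, -, hn, h1⟩ φ' ⟨-, -, hn', h2⟩
  rcases lt_trichotomy φ φ' with h | h | h
  · exact absurd h (key φ φ' hn hn' h1 h2)
  · exact h
  · exact absurd h (key φ' φ hn' hn h2 h1)

end Pool.XR2
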