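import Pool.Agent.H52.XR2.S1
import Pool.Agent.H65.XR.B3
import Pool.Agent.H97.XR.B4

/-!
# XR2, row DSU: the displacement of `C` outside `EE`, uniform version
-/

set_option autoImplicit false

open MeasureTheory Set Filter Topology Metric Asymptotics
open scoped Real ENNReal

namespace Pool.XR2

open Pool.Agent.H45.XR

namespace DSUa

theorem orb_succ_even (F G : ℝ → ℝ) (x : ℝ) (m : ℕ) :
    orb F G x (2 * m + 1) = F (orb F G x (2 * m)) := by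
  rw [orb, if_pos (even_two_mul m)]

theorem orb_succ_odd (F G : ℝ → ℝ) (x : ℝ) (m : ℕ) :
    orb F G x (2 * (m + 1)) = G (orb F G x (2 * m + 1)) := by
  rw [show 2 * (m + 1) = (2 * m + 1) + 1 by ring, orb, if_neg]
  rw [Nat.even_add_one, not_not]
  exact even_two_mul m

theorem orb_even (C : Set ℂ) (φ₀ φ₁ x : ℝ) (m : ℕ) :
    orbC C φ₀ φ₁ x (2 * m) = (TT C φ₀ φ₁)^[m] x := by
  unfold orbC
  induction m with
  | zero => rfl
  | succ m ih =>
    rw [orb_succ_odd, orb_succ_even, ih, Function.iterate_succ_apply']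
    rfl

theorem orbC_succ (C : Set ℂ) (φ₀ φ₁ x : ℝ) (n : ℕ) :
    orbC C φ₀ φ₁ x (n + 1) = fl C (if Even n then φ₀ else φ₁) (orbC C φ₀ φ₁ x n) := by
  unfold orbC
  by_cases h : Even n
  · rw [orb, if_pos h, if_pos h]
  · rw [orb, if_neg h, if_neg h]

theorem le_rad {r R : ℝ} {C : Set ℂ} (h : Bd r R C) (θ : ℝ) : r ≤ rad C θ := by
  by_contra hlt
  push Not at hlt
  have h0 := rad_pos h.body θ
  have h1 : ((((rad C θ + r) / 2 : ℝ) : ℂ)) * e θ ∈ C := by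
    apply h.inn
    rw [mem_ball_zero_iff, norm_mul, norm_e, mul_one, Complex.norm_real, Real.norm_eq_abs,
      abs_of_nonneg (by linarith)]
    linarith
  have h2 := (mem_iff_le_rad h.body θ (by linarith)).1 h1
  linarith

theorem rad_le {r R : ℝ} {C : Set ℂ} (h : Bd r R C) (θ : ℝ) : rad C θ ≤ R := by
  have h1 := h.out (pt_mem h.body θ)
  have h0 := rad_pos h.body θ
  rw [mem_closedBall_zero_iff, pt, norm_mul, norm_e, mul_one, Complex.norm_real,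
    Real.norm_eq_abs, abs_of_pos h0] at h1
  exact h1

theorem EE_closed {C C' : Set ℂ} (hC : Body C) (hC' : Body C') : IsClosed (EE C C') :=
  isClosed_eq (cont_rad hC) (cont_rad hC')

theorem EE_per (C C' : Set ℂ) (θ : ℝ) : θ ∈ EE C C' ↔ θ + 2 * π ∈ EE C C' := by
  have := B3.EE_int C C' (θ := θ) 1
  rw [Int.cast_one, one_mul] at this
  exact this.symm

theorem hasDerivAt_Psi {C C' : Set ℂ} (hC : Body C) (hC' : Body C') (z : ℝ) :
    HasDerivAt (Psi C C') (rad C' z ^ 2 - rad C z ^ 2) z := by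
  have h1 := cont_rad hC
  have h2 := cont_rad hC'
  have h3 : Continuous fun s => rad C' s ^ 2 - rad C s ^ 2 := by fun_prop
  exact (h3.integral_hasStrictDerivAt 0 z).hasDerivAt

theorem gap_flip {C C' : Set ℂ} {φ z a b : ℝ} (hF : IsFlip (C ∩ C') φ (fl (C ∩ C') φ))
    (hE : ∀ x ∈ EE C C', fl (C ∩ C') φ x ∈ EE C C')
    (ha : a ∈ EE C C') (hb : b ∈ EE C C') (hg : Ioo a b ∩ EE C C' = ∅)
    (hz : fl (C ∩ C') φ b < z ∧ z < fl (C ∩ C') φ a) :
    fl (C ∩ C') φ b ∈ EE C C' ∧ fl (C ∩ C') φ a ∈ EE C C' ∧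
      Ioo (fl (C ∩ C') φ b) (fl (C ∩ C') φ a) ∩ EE C C' = ∅ ∧
      fl (C ∩ C') φ b < z ∧ z < fl (C ∩ C') φ a := by
  refine ⟨hE b hb, hE a ha, ?_, hz⟩
  rw [Set.eq_empty_iff_forall_notMem]
  rintro y ⟨⟨h1, h2⟩, hy⟩
  have h3 := hF.anti h1
  have h4 := hF.anti h2
  rw [hF.inv] at h3 h4
  have h5 : fl (C ∩ C') φ y ∈ Ioo a b ∩ EE C C' := ⟨⟨h4, h3⟩, hE y hy⟩
  rw [hg] at h5
  exact h5

/-- The chain of `z` stays in the gaps of the chain of `(a, b)`. -/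
theorem chain_gap {C C' : Set ℂ} {φ₀ φ₁ κ ε z a b : ℝ} {r R : ℝ} {q : ℕ}
    (hC : Bd r R C) (hC' : Bd r R C') (hPM : PM C C' φ₀ φ₁)
    (hF0 : IsFlip (C ∩ C') φ₀ (fl (C ∩ C') φ₀)) (hF1 : IsFlip (C ∩ C') φ₁ (fl (C ∩ C') φ₁))
    (hE0 : ∀ x ∈ EE C C', fl (C ∩ C') φ₀ x ∈ EE C C')
    (hE1 : ∀ x ∈ EE C C', fl (C ∩ C') φ₁ x ∈ EE C C')
    (hG : ∀ (C C' : Set ℂ) (φ x a b : ℝ),
      Bd r R C → Bd r R C' → SameX C C' φ → NoSeg C φ → Lv C φ κ x →
      |rad C' x - rad C x| ≤ ε → |rad C' (fl C φ x) - rad C (fl C φ x)| ≤ ε →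
      a ∈ EE C C' → b ∈ EE C C' → a < x → x < b → Ioo a b ∩ EE C C' = ∅ →
      fl (C ∩ C') φ b < fl C φ x ∧ fl C φ x < fl (C ∩ C') φ a)
    (hz1 : Gd C φ₀ φ₁ q κ z)
    (hz2 : ∀ n ≤ 2 * q, |rad C' (orbC C φ₀ φ₁ z n) - rad C (orbC C φ₀ φ₁ z n)| ≤ ε)
    (ha : a ∈ EE C C') (hb : b ∈ EE C C') (haz : a < z) (hzb : z < b)
    (hg : Ioo a b ∩ EE C C' = ∅) (m : ℕ) (hm : m ≤ q) :
    (TT (C ∩ C') φ₀ φ₁)^[m] a ∈ EE C C' ∧ (TT (C ∩ C') φ₀ φ₁)^[m] b ∈ EE C C' ∧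
      Ioo ((TT (C ∩ C') φ₀ φ₁)^[m] a) ((TT (C ∩ C') φ₀ φ₁)^[m] b) ∩ EE C C' = ∅ ∧
      (TT (C ∩ C') φ₀ φ₁)^[m] a < orbC C φ₀ φ₁ z (2 * m) ∧
      orbC C φ₀ φ₁ z (2 * m) < (TT (C ∩ C') φ₀ φ₁)^[m] b := by
  induction m with
  | zero => exact ⟨ha, hb, hg, haz, hzb⟩
  | succ m ih =>
    obtain ⟨h1, h2, h3, h4, h5⟩ := ih (by omega)
    set A := (TT (C ∩ C') φ₀ φ₁)^[m] a with hA
    set B := (TT (C ∩ C') φ₀ φ₁)^[m] b with hB
    have s0 : orbC C φ₀ φ₁ z (2 * m + 1) = fl C φ₀ (orbC C φ₀ φ₁ z (2 * m)) := by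
      rw [orbC_succ, if_pos (even_two_mul m)]
    have hodd : ¬ Even (2 * m + 1) := by
      rw [Nat.even_add_one, not_not]
      exact even_two_mul m
    have s1 : orbC C φ₀ φ₁ z (2 * (m + 1)) = fl C φ₁ (orbC C φ₀ φ₁ z (2 * m + 1)) := by
      rw [show 2 * (m + 1) = (2 * m + 1) + 1 by ring, orbC_succ, if_neg hodd]
    have l0 : Lv C φ₀ κ (orbC C φ₀ φ₁ z (2 * m)) := by
      have := hz1 (2 * m) (by omega)
      rwa [if_pos (even_two_mul m)] at this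
    have l1 : Lv C φ₁ κ (orbC C φ₀ φ₁ z (2 * m + 1)) := by
      have := hz1 (2 * m + 1) (by omega)
      rwa [if_neg hodd] at this
    have g0 := hG C C' φ₀ _ A B hC hC' hPM.x0 hPM.n0 l0 (hz2 _ (by omega))
      (by rw [← s0]; exact hz2 _ (by omega)) h1 h2 h4 h5 h3
    obtain ⟨k1, k2, k3, k4, k5⟩ := gap_flip hF0 hE0 h1 h2 h3 g0
    rw [← s0] at k4 k5
    have g1 := hG C C' φ₁ _ _ _ hC hC' hPM.x1 hPM.n1 l1 (hz2 _ (by omega))
      (by rw [← s1]; exact hz2 _ (by omega)) k1 k2 k4 k5 k3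
    obtain ⟨j1, j2, j3, j4, j5⟩ := gap_flip hF1 hE1 k1 k2 k3 g1
    rw [← s1] at j4 j5
    have tA : (TT (C ∩ C') φ₀ φ₁)^[m + 1] a = fl (C ∩ C') φ₁ (fl (C ∩ C') φ₀ A) := by
      rw [Function.iterate_succ_apply']
      rfl
    have tB : (TT (C ∩ C') φ₀ φ₁)^[m + 1] b = fl (C ∩ C') φ₁ (fl (C ∩ C') φ₀ B) := by
      rw [Function.iterate_succ_apply']
      rfl
    rw [tA, tB]
    exact ⟨j1, j2, j3, j4, j5⟩

/-- Change of `Psi` and of the difference along the chain. -/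
theorem chain_area {C C' : Set ℂ} {φ₀ φ₁ κ ε z : ℝ} {r R B : ℝ} {q : ℕ} (hB : 1 ≤ B)
    (hC : Bd r R C) (hC' : Bd r R C') (hPM : PM C C' φ₀ φ₁)
    (hP : ∀ (C C' : Set ℂ) (φ x : ℝ),
      Bd r R C → Bd r R C' → SameX C C' φ → NoSeg C φ → Lv C φ κ x →
      |rad C' x - rad C x| ≤ ε → |rad C' (fl C φ x) - rad C (fl C φ x)| ≤ ε →
      |Psi C C' (fl C φ x) - Psi C C' x| ≤ B * (rad C' x - rad C x) ^ 2 ∧
      |rad C' (fl C φ x) - rad C (fl C φ x)| ≤ B * |rad C' x - rad C x|)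
    (hz1 : Gd C φ₀ φ₁ q κ z)
    (hz2 : ∀ n ≤ 2 * q, |rad C' (orbC C φ₀ φ₁ z n) - rad C (orbC C φ₀ φ₁ z n)| ≤ ε)
    (n : ℕ) (hn : n ≤ 2 * q) :
    |rad C' (orbC C φ₀ φ₁ z n) - rad C (orbC C φ₀ φ₁ z n)| ≤ B ^ n * |rad C' z - rad C z| ∧
    |Psi C C' (orbC C φ₀ φ₁ z n) - Psi C C' z| ≤
      n * (B * (B ^ (2 * q) * |rad C' z - rad C z|) ^ 2) := by
  have hB0 : 0 ≤ B := by linarith
  induction n with
  | zero =>
    refine ⟨?_, ?_⟩
    · simp [orbC, orb]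
    · simp [orbC, orb]
  | succ n ih =>
    obtain ⟨h1, h2⟩ := ih (by omega)
    have hs := orbC_succ C φ₀ φ₁ z n
    have hl := hz1 n (by omega)
    have hX : SameX C C' (if Even n then φ₀ else φ₁) := by
      split_ifs
      · exact hPM.x0
      · exact hPM.x1
    have hN : NoSeg C (if Even n then φ₀ else φ₁) := by
      split_ifs
      · exact hPM.n0
      · exact hPM.n1
    obtain ⟨k1, k2⟩ := hP C C' _ _ hC hC' hX hN hl (hz2 n (by omega))
      (by rw [← hs]; exact hz2 (n + 1) hn)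
    rw [← hs] at k1 k2
    refine ⟨?_, ?_⟩
    · calc |rad C' (orbC C φ₀ φ₁ z (n + 1)) - rad C (orbC C φ₀ φ₁ z (n + 1))|
          ≤ B * |rad C' (orbC C φ₀ φ₁ z n) - rad C (orbC C φ₀ φ₁ z n)| := k2
        _ ≤ B * (B ^ n * |rad C' z - rad C z|) := mul_le_mul_of_nonneg_left h1 hB0
        _ = B ^ (n + 1) * |rad C' z - rad C z| := by ring
    · have h3 : |rad C' (orbC C φ₀ φ₁ z n) - rad C (orbC C φ₀ φ₁ z n)| ≤
          B ^ (2 * q) * |rad C' z - rad C z| := by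
        refine h1.trans (mul_le_mul_of_nonneg_right ?_ (abs_nonneg _))
        exact pow_le_pow_right₀ hB (by omega)
      have h4 : (rad C' (orbC C φ₀ φ₁ z n) - rad C (orbC C φ₀ φ₁ z n)) ^ 2 ≤
          (B ^ (2 * q) * |rad C' z - rad C z|) ^ 2 := by
        rw [← sq_abs]
        exact pow_le_pow_left₀ (abs_nonneg _) h3 2
      have h5 := abs_sub_le (Psi C C' (orbC C φ₀ φ₁ z (n + 1))) (Psi C C' (orbC C φ₀ φ₁ z n))
        (Psi C C' z)
      have h6 := mul_le_mul_of_nonneg_left h4 hB0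
      push_cast
      linarith

end DSUa

open DSUa in
theorem t_dsu (hFLX : FLXStmt) (hFLB : FLBStmt) (hWFL : WFLStmt) (hGAP : GAPStmt)
    (hGFL : GFLStmt) (hPSA : PSAStmt) (hODE : ODEStmt) : DSUStmt := by
  intro r R κ q hr hκ hq
  obtain ⟨ε₁, hε₁, hG⟩ := hGFL r R κ hr hκ
  obtain ⟨ε₂, hε₂, B₀, hB₀, hP⟩ := hPSA r R κ hr hκ
  set B := max B₀ 1 with hBdef
  have hB1 : 1 ≤ B := le_max_right _ _
  have hB0 : 0 < B := by linarith
  set B₁ : ℝ := 2 * q * (B * (B ^ (2 * q)) ^ 2) with hB₁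
  have hq' : (0 : ℝ) < q := by exact_mod_cast hq
  have hB₁pos : 0 < B₁ := by positivity
  set B₂ : ℝ := B₁ / (4 * r ^ 2) with hB₂
  have hB₂pos : 0 < B₂ := by positivity
  set R' := max R 1 with hR'
  have hR'pos : 0 < R' := lt_of_lt_of_le one_pos (le_max_right _ _)
  refine ⟨min ε₁ ε₂, lt_min hε₁ hε₂, 4 * R' * B₂, by positivity, ?_⟩
  intro C C' φ₀ φ₁ p x η hC hC' hPM hrot hx hη hz hsmall
  have hbC := hC.body
  have hbC' := hC'.body
  obtain ⟨hW, hWn0, -, hE0, -, hFx0, -, -, -⟩ := hWFL C C' φ₀ hbC hbC' hPM.x0 hPM.n0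
  obtain ⟨-, hWn1, -, hE1, -, -, -, -, -⟩ := hWFL C C' φ₁ hbC hbC' hPM.x1 hPM.n1
  have hF0 := (hFLX _ _ hW hWn0).1
  have hF1 := (hFLX _ _ hW hWn1).1
  have hne : C ≠ C' := by
    rintro rfl
    exact hx rfl
  -- the gap
  obtain ⟨e₀, -, -, he₀, -⟩ := hF0.rt
  have he₀E : e₀ ∈ EE C C' := hFx0 e₀ ⟨0, by simp [he₀]⟩
  have hEcl := DSUa.EE_closed hbC hbC'
  have hEper := EE_per C C'
  obtain ⟨a, b, ha, hb, hax, hxb, hg⟩ : ∃ a b : ℝ, a ∈ EE C C' ∧ b ∈ EE C C' ∧ a < x ∧ x < b ∧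
      Ioo a b ∩ EE C C' = ∅ := by
    have hA : (EE C C' ∩ Iic x).Nonempty := by
      obtain ⟨y, hy, hyt⟩ := ArcsAux.exists_small hEper he₀E x
      exact ⟨y, hy, hyt⟩
    have hB : (EE C C' ∩ Ici x).Nonempty := by
      obtain ⟨y, hy, hyt⟩ := ArcsAux.exists_large hEper he₀E x
      exact ⟨y, hy, hyt⟩
    have hbA : BddAbove (EE C C' ∩ Iic x) := ⟨x, fun y hy => hy.2⟩
    have hbB : BddBelow (EE C C' ∩ Ici x) := ⟨x, fun y hy => hy.2⟩
    have h1 := (hEcl.inter isClosed_Iic).csSup_mem hA hbA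
    have h2 := (hEcl.inter isClosed_Ici).csInf_mem hB hbB
    refine ⟨_, _, h1.1, h2.1, lt_of_le_of_ne h1.2 (fun h => hx (h ▸ h1.1)),
      lt_of_le_of_ne h2.2 (fun h => hx (h ▸ h2.1)), ?_⟩
    rw [Set.eq_empty_iff_forall_notMem]
    rintro y ⟨⟨h5, h6⟩, hy⟩
    rcases le_total y x with h | h
    · exact absurd (le_csSup hbA ⟨hy, h⟩) (not_le.2 h5)
    · exact absurd (csInf_le hbB ⟨hy, h⟩) (not_le.2 h6)
  obtain ⟨hTa, hTb⟩ := hGAP C C' φ₀ φ₁ hPM hne p q hq hrot a ha b hb (hax.trans hxb) hg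
  -- the map `S`
  obtain ⟨hD, -⟩ := (hFLB C φ₀ hbC hPM.n0).2.2.2.2.2 φ₁ hPM.n1
  have hTmono : Monotone ((TT C φ₀ φ₁)^[q]) := hD.mono.monotone.iterate q
  set S : ℝ → ℝ := fun z => (TT C φ₀ φ₁)^[q] z - 2 * π * p with hS
  have hSmono : Monotone S := fun u v huv => sub_le_sub_right (hTmono huv) _
  have hPper := Psi_periodic hbC hbC' (sameX_volume hbC.cpt hbC'.cpt hPM.x0)
  have hPint : ∀ (y : ℝ) (k : ℤ), Psi C C' (y - 2 * π * k) = Psi C C' y := by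
    intro y k
    have h1 : Function.Periodic (Psi C C') (2 * π) := hPper
    have h2 := h1.sub_zsmul_eq k (x := y)
    rw [zsmul_eq_mul] at h2
    rw [← h2]
    congr 1
    ring
  have key : ∀ z, |z - x| < η → z ∈ Ioo a b →
      S z ∈ Ioo a b ∧ |Psi C C' (S z) - Psi C C' z| ≤ B₁ * (rad C' z - rad C z) ^ 2 := by
    intro z hzx hzab
    obtain ⟨hGz, hεz⟩ := hz z hzx
    have hε1 : ∀ n ≤ 2 * q, |rad C' (orbC C φ₀ φ₁ z n) - rad C (orbC C φ₀ φ₁ z n)| ≤ ε₁ :=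
      fun n hn => (hεz n hn).trans (min_le_left _ _)
    have hε2 : ∀ n ≤ 2 * q, |rad C' (orbC C φ₀ φ₁ z n) - rad C (orbC C φ₀ φ₁ z n)| ≤ ε₂ :=
      fun n hn => (hεz n hn).trans (min_le_right _ _)
    have h1 := chain_gap hC hC' hPM hF0 hF1 hE0 hE1 hG hGz hε1 ha hb hzab.1 hzab.2 hg q le_rfl
    rw [hTa, hTb, orb_even] at h1
    obtain ⟨-, -, -, h4, h5⟩ := h1
    refine ⟨⟨?_, ?_⟩, ?_⟩
    · show a < (TT C φ₀ φ₁)^[q] z - 2 * π * p
      linarith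
    · show (TT C φ₀ φ₁)^[q] z - 2 * π * p < b
      linarith
    · have hP' : ∀ (C C' : Set ℂ) (φ x : ℝ),
          Bd r R C → Bd r R C' → SameX C C' φ → NoSeg C φ → Lv C φ κ x →
          |rad C' x - rad C x| ≤ ε₂ → |rad C' (fl C φ x) - rad C (fl C φ x)| ≤ ε₂ →
          |Psi C C' (fl C φ x) - Psi C C' x| ≤ B * (rad C' x - rad C x) ^ 2 ∧
          |rad C' (fl C φ x) - rad C (fl C φ x)| ≤ B * |rad C' x - rad C x| := by
        intro C C' φ x i1 i2 i3 i4 i5 i6 i7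
        obtain ⟨j1, j2⟩ := hP C C' φ x i1 i2 i3 i4 i5 i6 i7
        exact ⟨j1.trans (mul_le_mul_of_nonneg_right (le_max_left _ _) (sq_nonneg _)),
          j2.trans (mul_le_mul_of_nonneg_right (le_max_left _ _) (abs_nonneg _))⟩
      have h6 := (chain_area hB1 hC hC' hPM hP' hGz hε2 (2 * q) le_rfl).2
      rw [orb_even] at h6
      rw [hS]
      dsimp only
      rw [hPint]
      refine h6.trans (le_of_eq ?_)
      rw [mul_pow, sq_abs, hB₁]
      push_cast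
      ring
  have hψ1 : ∀ z, (rad C' z - rad C z) ^ 2 ≤ (rad C' z ^ 2 - rad C z ^ 2) ^ 2 / (4 * r ^ 2) := by
    intro z
    have i1 := le_rad hC z
    have i2 := le_rad hC' z
    rw [le_div_iff₀ (by positivity)]
    have i3 : rad C' z ^ 2 - rad C z ^ 2 = (rad C' z - rad C z) * (rad C' z + rad C z) := by ring
    rw [i3, mul_pow]
    refine mul_le_mul_of_nonneg_left ?_ (sq_nonneg _)
    nlinarith
  have hψ2 : ∀ z, |rad C' z ^ 2 - rad C z ^ 2| ≤ 2 * R' * |rad C' z - rad C z| := by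
    intro z
    have i1 := rad_le hC z
    have i2 := rad_le hC' z
    have i4 := rad_pos hbC z
    have i5 := rad_pos hbC' z
    have i3 : rad C' z ^ 2 - rad C z ^ 2 = (rad C' z + rad C z) * (rad C' z - rad C z) := by ring
    rw [i3, abs_mul, abs_of_pos (by linarith)]
    refine mul_le_mul_of_nonneg_right ?_ (abs_nonneg _)
    have := le_max_left R 1
    linarith
  have hcont : Continuous fun z => rad C' z ^ 2 - rad C z ^ 2 := by
    have h1 := cont_rad hbC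
    have h2 := cont_rad hbC'
    fun_prop
  have hxab : x ∈ Ioo a b := ⟨hax, hxb⟩
  have hSx := (key x (by simpa using hη) hxab).1
  have hfin := hODE (Psi C C') (fun z => rad C' z ^ 2 - rad C z ^ 2) S x η B₂ hη hB₂pos.le
    (hasDerivAt_Psi hbC hbC') hcont hSmono (by
      intro z hz1 hz2
      have hzab : z ∈ Ioo a b := by
        have := (ordConnected_Ioo (a := a) (b := b)).uIcc_subset hxab hSx
        exact this hz1
      obtain ⟨k1, k2⟩ := key z hz2 hzab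
      refine ⟨?_, ?_⟩
      · intro y hy
        have hyab : y ∈ Ioo a b :=
          (ordConnected_Ioo (a := a) (b := b)).uIcc_subset hzab k1 hy
        intro h0
        have i4 := rad_pos hbC y
        have i5 := rad_pos hbC' y
        have i3 : (rad C' y + rad C y) * (rad C' y - rad C y) = 0 := by
          linear_combination h0
        rcases mul_eq_zero.1 i3 with h | h
        · linarith
        · have h6 : y ∈ Ioo a b ∩ EE C C' := ⟨hyab, show rad C y = rad C' y by linarith⟩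
          rw [hg] at h6
          exact h6
      · refine k2.trans ?_
        have := mul_le_mul_of_nonneg_left (hψ1 z) hB₁pos.le
        refine this.trans (le_of_eq ?_)
        rw [hB₂]
        ring)
    (by
      refine lt_of_le_of_lt ?_ hsmall
      have := mul_le_mul_of_nonneg_left (hψ2 x) (by positivity : (0 : ℝ) ≤ 2 * B₂)
      refine this.trans (le_of_eq ?_)
      ring)
  have h8 : dsp C φ₀ φ₁ p q x = S x - x := by
    unfold dsp
    rw [hS]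
    ring
  rw [h8]
  refine hfin.trans ?_
  have := mul_le_mul_of_nonneg_left (hψ2 x) (by positivity : (0 : ℝ) ≤ 2 * B₂)
  refine this.trans (le_of_eq ?_)
  ring

end Pool.XR2
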